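import Pool.Agent.Helper55.CF.Goals

/-! Packet N1: the constant in the stationary phase formula for `y ^ 2` is a positive real. -/

set_option autoImplicit false

open MeasureTheory Complex Set Filter
open scoped ContDiff ComplexConjugate Topology

noncomputable section
namespace Pool.Agent.Helper96.CF

open CF55

/-- the oscillatory integral -/
def Aφ (χ : ℂ → ℝ) (σ : ℂ) : ℂ := ∫ y : ℂ, cexp (I * ((σ * y ^ 2).re : ℂ)) * χ y

theorem norm_ker (χ : ℂ → ℝ) (σ y : ℂ) :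
    ‖cexp (I * ((σ * y ^ 2).re : ℂ)) * χ y‖ = ‖χ y‖ := by
  rw [norm_mul, norm_exp_I_mul_ofReal, one_mul, norm_real]

theorem Aφ_bound (χ : ℂ → ℝ) (σ : ℂ) : ‖Aφ χ σ‖ ≤ ∫ y, ‖χ y‖ := by
  refine (norm_integral_le_integral_norm _).trans (le_of_eq ?_)
  exact integral_congr_ae (Eventually.of_forall fun y => norm_ker χ σ y)

theorem Aφ_cont {χ : ℂ → ℝ} (hχ : Continuous χ) (hc : HasCompactSupport χ) :
    Continuous (Aφ χ) := by
  refine continuous_of_dominated (bound := fun y => ‖χ y‖) (fun σ => ?_) (fun σ => ?_)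
    (hχ.integrable_of_hasCompactSupport hc).norm ?_
  · exact Continuous.aestronglyMeasurable (by fun_prop)
  · exact Eventually.of_forall fun y => (norm_ker χ σ y).le
  · exact Eventually.of_forall fun y => by fun_prop

/-- the Gaussian -/
def gs (l : ℝ) (σ : ℂ) : ℝ := Real.exp (-(l * ‖σ‖ ^ 2))

theorem gs_cont (l : ℝ) : Continuous (gs l) := by
  unfold gs
  fun_prop

theorem gs_pos (l : ℝ) (σ : ℂ) : 0 < gs l σ := Real.exp_pos _

theorem gs_int {l : ℝ} (hl : 0 < l) : Integrable (gs l) := by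
  have h : Integrable (fun σ : ℂ => (fun y : ℝ => Real.exp (-(l * y ^ 2))) ‖σ‖) := by
    refine (integrable_fun_norm_addHaar (volume : Measure ℂ)
      (f := fun y : ℝ => Real.exp (-(l * y ^ 2)))).2 ?_
    rw [Complex.finrank_real_complex]
    have h1 := (integrable_mul_exp_neg_mul_sq hl).integrableOn (s := Ioi (0 : ℝ))
    refine h1.congr_fun (fun y _ => ?_) measurableSet_Ioi
    simp only [smul_eq_mul]
    norm_num
  exact h

theorem gsn_int {l : ℝ} (hl : 0 < l) : Integrable (fun σ : ℂ => ‖σ‖⁻¹ * gs l σ) := by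
  have h : Integrable (fun σ : ℂ => (fun y : ℝ => y⁻¹ * Real.exp (-(l * y ^ 2))) ‖σ‖) := by
    refine (integrable_fun_norm_addHaar (volume : Measure ℂ)
      (f := fun y : ℝ => y⁻¹ * Real.exp (-(l * y ^ 2)))).2 ?_
    rw [Complex.finrank_real_complex]
    have h1 := (integrable_exp_neg_mul_sq hl).integrableOn (s := Ioi (0 : ℝ))
    refine h1.congr_fun (fun y hy => ?_) measurableSet_Ioi
    have hy' : (y : ℝ) ≠ 0 := ne_of_gt hy
    simp only [smul_eq_mul, Nat.add_one_sub_one, pow_one]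
    rw [← mul_assoc, mul_inv_cancel₀ hy', one_mul, neg_mul]
  exact h

/-- the dominating function -/
def dom (a b k : ℝ) (σ : ℂ) : ℝ := if ‖σ‖ < 1 then a + b * ‖σ‖⁻¹ else k * (‖σ‖ ^ 4)⁻¹

theorem dom_int (a b k : ℝ) : Integrable (dom a b k) := by
  have h : Integrable (fun σ : ℂ =>
      (fun y : ℝ => if y < 1 then a + b * y⁻¹ else k * (y ^ 4)⁻¹) ‖σ‖) := by
    refine (integrable_fun_norm_addHaar (volume : Measure ℂ)
      (f := fun y : ℝ => if y < 1 then a + b * y⁻¹ else k * (y ^ 4)⁻¹)).2 ?_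
    rw [Complex.finrank_real_complex]
    have hsplit : Ioi (0 : ℝ) = Ioo 0 1 ∪ Ici 1 := by
      ext y
      simp only [mem_Ioi, mem_union, mem_Ioo, mem_Ici]
      constructor
      · intro hy
        rcases lt_or_ge y 1 with h | h
        · exact Or.inl ⟨hy, h⟩
        · exact Or.inr h
      · rintro (h | h)
        · exact h.1
        · linarith
    rw [hsplit]
    refine IntegrableOn.union ?_ ?_
    · have h1 : IntegrableOn (fun y : ℝ => a * y + b) (Ioo 0 1) := by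
        have h2 : IntegrableOn (fun y : ℝ => a * y + b) (Icc 0 1) :=
          (by fun_prop : Continuous fun y : ℝ => a * y + b).integrableOn_Icc
        exact h2.mono_set Ioo_subset_Icc_self
      refine h1.congr_fun (fun y hy => ?_) measurableSet_Ioo
      have hy' : y ≠ 0 := ne_of_gt hy.1
      simp only [smul_eq_mul, Nat.add_one_sub_one, pow_one, if_pos hy.2]
      field_simp
    · have h1 : IntegrableOn (fun y : ℝ => k * y ^ (-3 : ℝ)) (Ici 1) := by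
        rw [integrableOn_Ici_iff_integrableOn_Ioi]
        exact (integrableOn_Ioi_rpow_of_lt (by norm_num) one_pos).const_mul k
      refine h1.congr_fun (fun y hy => ?_) measurableSet_Ici
      have hy0 : (0 : ℝ) < y := lt_of_lt_of_le one_pos hy
      have hy1 : ¬ y < 1 := not_lt.2 hy
      simp only [smul_eq_mul, Nat.add_one_sub_one, pow_one, if_neg hy1]
      rw [Real.rpow_neg hy0.le, show (3 : ℝ) = ((3 : ℕ) : ℝ) by norm_num, Real.rpow_natCast]
      field_simp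
  exact h

theorem inner_int (hG : G_GAUSS) {l : ℝ} (hl : 0 < l) (t : ℂ) :
    ∫ σ : ℂ, cexp (I * ((σ * t).re : ℂ)) * (gs l σ : ℂ) =
      ((Real.pi / l * Real.exp (-(‖t‖ ^ 2 / (4 * l))) : ℝ) : ℂ) := by
  have h := (hG 0 (t / 2) l hl).2
  have e1 : (fun x : ℂ => cexp (I * ((0 * x ^ 2 + 2 * (t / 2) * x).re : ℂ) - l * ‖x‖ ^ 2)) =
      fun σ : ℂ => cexp (I * ((σ * t).re : ℂ)) * (gs l σ : ℂ) := by
    funext σ
    rw [gs, ofReal_exp, ← Complex.exp_add]
    have : 0 * σ ^ 2 + 2 * (t / 2) * σ = σ * t := by ring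
    rw [this]
    congr 1
    push_cast
    ring
  rw [e1] at h
  rw [h, norm_zero]
  have e2 : Real.sqrt (l ^ 2 + 0 ^ 2) = l := by
    rw [zero_pow two_ne_zero, add_zero, Real.sqrt_sq hl.le]
  have e4 : ((Real.pi / l * Real.exp (-(‖t‖ ^ 2 / (4 * l))) : ℝ) : ℂ) =
      ((Real.pi / l : ℝ) : ℂ) * cexp ((-(‖t‖ ^ 2 / (4 * l)) : ℝ) : ℂ) := by
    rw [ofReal_mul, ofReal_exp]
  rw [e4, e2, map_zero, zero_mul, zero_re, ofReal_zero, mul_zero, add_zero]
  congr 2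
  have e3 : ‖t / 2‖ ^ 2 = ‖t‖ ^ 2 / 4 := by
    rw [norm_div, Complex.norm_ofNat, div_pow]
    norm_num
  rw [e3, ← ofReal_neg, ← ofReal_div]
  congr 1
  have : l ≠ 0 := hl.ne'
  field_simp
  ring

/-- the mean of `Aφ` against a Gaussian -/
theorem mean_eq (hG : G_GAUSS) {χ : ℂ → ℝ} (hχ : Continuous χ) (hc : HasCompactSupport χ)
    {l : ℝ} (hl : 0 < l) :
    ∫ σ : ℂ, Aφ χ σ * (gs l σ : ℂ) =
      ((Real.pi / l * ∫ y : ℂ, χ y * Real.exp (-(‖y‖ ^ 4 / (4 * l))) : ℝ) : ℂ) := by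
  have e1 : ∀ σ : ℂ, Aφ χ σ * (gs l σ : ℂ) =
      ∫ y : ℂ, cexp (I * ((σ * y ^ 2).re : ℂ)) * χ y * (gs l σ : ℂ) := by
    intro σ
    rw [Aφ, integral_mul_const]
  simp_rw [e1]
  have hint : Integrable (Function.uncurry fun (σ y : ℂ) =>
      cexp (I * ((σ * y ^ 2).re : ℂ)) * χ y * (gs l σ : ℂ)) (volume.prod volume) := by
    have h1 : Integrable (fun z : ℂ × ℂ => gs l z.1 * χ z.2) (volume.prod volume) :=
      (gs_int hl).mul_prod (hχ.integrable_of_hasCompactSupport hc)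
    refine h1.mono ?_ (Eventually.of_forall fun z => ?_)
    · have hg := gs_cont l
      apply Continuous.aestronglyMeasurable
      unfold Function.uncurry
      fun_prop
    · show ‖cexp (I * ((z.1 * z.2 ^ 2).re : ℂ)) * χ z.2 * (gs l z.1 : ℂ)‖ ≤ _
      rw [norm_mul, norm_ker, norm_real, norm_mul, mul_comm]
  rw [integral_integral_swap hint]
  have e2 : ∀ y : ℂ, ∫ σ : ℂ, cexp (I * ((σ * y ^ 2).re : ℂ)) * χ y * (gs l σ : ℂ) =
      ((Real.pi / l * (χ y * Real.exp (-(‖y‖ ^ 4 / (4 * l)))) : ℝ) : ℂ) := by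
    intro y
    have e3 : ∀ σ : ℂ, cexp (I * ((σ * y ^ 2).re : ℂ)) * χ y * (gs l σ : ℂ) =
        (χ y : ℂ) * (cexp (I * ((σ * y ^ 2).re : ℂ)) * (gs l σ : ℂ)) := fun σ => by ring
    simp_rw [e3]
    rw [integral_const_mul, inner_int hG hl (y ^ 2), ← ofReal_mul]
    congr 1
    have e4 : ‖y ^ 2‖ ^ 2 = ‖y‖ ^ 4 := by rw [norm_pow, ← pow_mul]
    rw [e4]
    ring
  simp_rw [e2]
  rw [integral_complex_ofReal, integral_const_mul]

/-- lower bound for the mean -/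
theorem mean_ge {χ : ℂ → ℝ} (hχ : Continuous χ) (hc : HasCompactSupport χ)
    (h0 : ∀ y, 0 ≤ χ y) {δ : ℝ} (h1 : ∀ y : ℂ, ‖y‖ ≤ δ → χ y = 1) {r : ℝ} (hr : 0 < r)
    (hrδ : r ≤ δ) :
    Real.exp (-(1 / 4)) * Real.pi * r ^ 2 ≤
      ∫ y : ℂ, χ y * Real.exp (-(‖y‖ ^ 4 / (4 * r ^ 4))) := by
  have hvol : (volume : Measure ℂ).real (Metric.closedBall 0 r) = r ^ 2 * Real.pi := by
    rw [Measure.real, Complex.volume_closedBall, ENNReal.toReal_mul, ENNReal.toReal_pow,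
      ENNReal.toReal_ofReal hr.le]
    rfl
  have e1 : Real.exp (-(1 / 4)) * Real.pi * r ^ 2 =
      ∫ y : ℂ in Metric.closedBall (0 : ℂ) r, Real.exp (-(1 / 4)) := by
    rw [setIntegral_const, hvol, smul_eq_mul]
    ring
  have hint : Integrable (fun y : ℂ => χ y * Real.exp (-(‖y‖ ^ 4 / (4 * r ^ 4)))) := by
    refine Continuous.integrable_of_hasCompactSupport (by fun_prop) ?_
    exact hc.mul_right
  rw [e1]
  refine le_trans (setIntegral_mono_on (integrableOn_const (by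
      rw [Complex.volume_closedBall]
      exact ENNReal.mul_ne_top (ENNReal.pow_ne_top ENNReal.ofReal_ne_top) ENNReal.coe_ne_top))
    hint.integrableOn Metric.isClosed_closedBall.measurableSet (fun y hy => ?_))
    (setIntegral_le_integral hint (Eventually.of_forall fun y =>
      mul_nonneg (h0 y) (Real.exp_pos _).le))
  have hy' : ‖y‖ ≤ r := by simpa using hy
  rw [h1 y (hy'.trans hrδ), one_mul]
  apply Real.exp_le_exp.2
  apply neg_le_neg
  rw [div_le_div_iff₀ (by positivity) (by norm_num)]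
  have : ‖y‖ ^ 4 ≤ r ^ 4 := pow_le_pow_left₀ (norm_nonneg _) hy' 4
  linarith

/-- scaling -/
theorem scale {r : ℝ} (hr : 0 < r) :
    ∫ σ : ℂ, ‖σ‖⁻¹ * gs (r ^ 4) σ = (r ^ 2)⁻¹ * ∫ σ : ℂ, ‖σ‖⁻¹ * gs 1 σ := by
  have h := Measure.integral_comp_smul (volume : Measure ℂ)
    (fun σ : ℂ => ‖σ‖⁻¹ * gs 1 σ) (r ^ 2)
  rw [Complex.finrank_real_complex, smul_eq_mul] at h
  have e1 : ∀ σ : ℂ, ‖(r ^ 2) • σ‖⁻¹ * gs 1 ((r ^ 2) • σ) = (r ^ 2)⁻¹ * (‖σ‖⁻¹ * gs (r ^ 4) σ) := by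
    intro σ
    rw [norm_smul, Real.norm_eq_abs, abs_of_pos (by positivity : (0 : ℝ) < r ^ 2), mul_inv,
      mul_assoc]
    congr 2
    rw [gs, gs, norm_smul, Real.norm_eq_abs, abs_of_pos (by positivity : (0 : ℝ) < r ^ 2)]
    congr 1
    ring
  simp_rw [e1] at h
  rw [integral_const_mul, abs_of_pos (by positivity)] at h
  have h2 : (r ^ 2) ≠ 0 := by positivity
  have h3 : ∫ σ : ℂ, ‖σ‖⁻¹ * gs (r ^ 4) σ =
      (r ^ 2) * ((r ^ 2)⁻¹ * ∫ σ : ℂ, ‖σ‖⁻¹ * gs (r ^ 4) σ) := by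
    field_simp
  rw [h3, h]
  field_simp

/-- a bound by `G r ^ 2` for all small `r` gives `≤ 0` -/
theorem lim_le {a G δ : ℝ} (hδ : 0 < δ) (h : ∀ r, 0 < r → r ≤ δ → a ≤ G * r ^ 2) : a ≤ 0 := by
  have h1 : Tendsto (fun r : ℝ => G * r ^ 2) (𝓝[>] 0) (𝓝 (G * 0 ^ 2)) :=
    ((by fun_prop : Continuous fun r : ℝ => G * r ^ 2).tendsto 0).mono_left nhdsWithin_le_nhds
  rw [zero_pow two_ne_zero, mul_zero] at h1
  refine ge_of_tendsto h1 ?_
  filter_upwards [Ioc_mem_nhdsGT hδ] with r hr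
  exact h r hr.1 hr.2

theorem stmtN1 (hA : G_N1a) (hG : G_GAUSS) : G_N1 := by
  intro χ hχ hc hrad h0 h1
  obtain ⟨c, K, hK⟩ := hA χ hχ hc hrad h1
  have hcont : Continuous χ := hχ.continuous
  obtain ⟨ε, hε, hball⟩ := Metric.eventually_nhds_iff.1 h1
  obtain ⟨δ, hδ, hδε⟩ : ∃ δ : ℝ, 0 < δ ∧ δ < ε := ⟨ε / 2, by linarith, by linarith⟩
  have h1' : ∀ y : ℂ, ‖y‖ ≤ δ → χ y = 1 := fun y hy =>
    hball (by rw [dist_zero_right]; exact lt_of_le_of_lt hy hδε)
  obtain ⟨J, hJ⟩ : ∃ J : ℝ, J = ∫ σ : ℂ, ‖σ‖⁻¹ * gs 1 σ := ⟨_, rfl⟩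
  have hJ0 : 0 ≤ J := by
    rw [hJ]
    exact integral_nonneg fun σ => mul_nonneg (inv_nonneg.2 (norm_nonneg _)) (gs_pos _ _).le
  obtain ⟨B, hB⟩ : ∃ B : ℝ, B = ∫ y, ‖χ y‖ := ⟨_, rfl⟩
  obtain ⟨Gd, hGd⟩ : ∃ Gd : ℝ, Gd = ∫ σ : ℂ, dom B ‖c‖ K σ := ⟨_, rfl⟩
  -- the main estimate
  have main : ∀ r, 0 < r → r ≤ δ → ∃ m : ℝ, Real.exp (-(1 / 4)) * Real.pi ^ 2 ≤ m ∧
      ‖(m : ℂ) - c * J‖ ≤ Gd * r ^ 2 := by
    intro r hr hrδ
    have hl : 0 < r ^ 4 := by positivity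
    obtain ⟨M, hM⟩ : ∃ M : ℝ, M = Real.pi / r ^ 4 *
      ∫ y : ℂ, χ y * Real.exp (-(‖y‖ ^ 4 / (4 * r ^ 4))) := ⟨_, rfl⟩
    have hmean := mean_eq hG hcont hc hl
    rw [← hM] at hmean
    have hMge : Real.exp (-(1 / 4)) * Real.pi ^ 2 ≤ r ^ 2 * M := by
      have h2 := mean_ge hcont hc h0 h1' hr hrδ
      have h3 : 0 < Real.pi := Real.pi_pos
      calc Real.exp (-(1 / 4)) * Real.pi ^ 2
          = r ^ 2 * (Real.pi / r ^ 4 * (Real.exp (-(1 / 4)) * Real.pi * r ^ 2)) := by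
            field_simp
        _ ≤ r ^ 2 * M := by
            rw [hM]
            gcongr
    refine ⟨r ^ 2 * M, hMge, ?_⟩
    -- the difference
    have hI1 : Integrable (fun σ : ℂ => Aφ χ σ * (gs (r ^ 4) σ : ℂ)) := by
      have h2 : Integrable (fun σ : ℂ => B * gs (r ^ 4) σ) := (gs_int hl).const_mul B
      refine h2.mono ?_ (Eventually.of_forall fun σ => ?_)
      · have hg := gs_cont (r ^ 4)
        have ha := Aφ_cont hcont hc
        exact Continuous.aestronglyMeasurable (by fun_prop)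
      · rw [norm_mul, norm_mul, norm_real]
        refine mul_le_mul_of_nonneg_right ?_ (norm_nonneg _)
        refine (Aφ_bound χ σ).trans ?_
        rw [← hB]
        exact le_abs_self B
    have hI2 : Integrable (fun σ : ℂ => c * ((‖σ‖⁻¹ * gs (r ^ 4) σ : ℝ) : ℂ)) :=
      ((gsn_int hl).ofReal).const_mul c
    have hdiff : ∫ σ : ℂ, (Aφ χ σ * (gs (r ^ 4) σ : ℂ) - c * ((‖σ‖⁻¹ * gs (r ^ 4) σ : ℝ) : ℂ)) =
        (M : ℂ) - c * (((r ^ 2)⁻¹ * J : ℝ) : ℂ) := by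
      rw [integral_sub hI1 hI2, hmean, integral_const_mul, integral_complex_ofReal, scale hr, ← hJ]
    have hle : ‖(M : ℂ) - c * (((r ^ 2)⁻¹ * J : ℝ) : ℂ)‖ ≤ Gd := by
      rw [← hdiff, hGd]
      refine norm_integral_le_of_norm_le (dom_int _ _ _) (Eventually.of_forall fun σ => ?_)
      have e1 : Aφ χ σ * (gs (r ^ 4) σ : ℂ) - c * ((‖σ‖⁻¹ * gs (r ^ 4) σ : ℝ) : ℂ) =
          (Aφ χ σ - c / ‖σ‖) * (gs (r ^ 4) σ : ℂ) := by
        push_cast
        ring
      have e2 : gs (r ^ 4) σ ≤ 1 := by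
        rw [gs]
        apply Real.exp_le_one_iff.2
        have : 0 ≤ r ^ 4 * ‖σ‖ ^ 2 := by positivity
        linarith
      rw [e1, norm_mul, norm_real, Real.norm_eq_abs, abs_of_pos (gs_pos _ _)]
      refine (mul_le_of_le_one_right (norm_nonneg _) e2).trans ?_
      rw [dom]
      split_ifs with h2
      · refine (norm_sub_le _ _).trans (add_le_add ?_ (le_of_eq ?_))
        · rw [hB]
          exact Aφ_bound χ σ
        · rw [norm_div, norm_real, norm_norm, div_eq_mul_inv]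
      · exact (hK σ (not_lt.1 h2)).trans (le_of_eq (div_eq_mul_inv _ _))
    have e3 : ((r ^ 2 * M : ℝ) : ℂ) - c * J =
        ((r ^ 2 : ℝ) : ℂ) * ((M : ℂ) - c * (((r ^ 2)⁻¹ * J : ℝ) : ℂ)) := by
      have hrc : (r : ℂ) ≠ 0 := by exact_mod_cast hr.ne'
      push_cast
      field_simp
    rw [e3, norm_mul, norm_real, Real.norm_eq_abs, abs_of_pos (by positivity), mul_comm]
    exact mul_le_mul_of_nonneg_right hle (by positivity)
  -- conclusions
  have him : |c.im * J| ≤ 0 := by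
    refine lim_le (G := Gd) hδ fun r hr hrδ => ?_
    obtain ⟨m, _, hm⟩ := main r hr hrδ
    refine le_trans ?_ hm
    have h2 := abs_im_le_norm ((m : ℂ) - c * J)
    simpa [abs_mul] using h2
  have hre : Real.exp (-(1 / 4)) * Real.pi ^ 2 - c.re * J ≤ 0 := by
    refine lim_le (G := Gd) hδ fun r hr hrδ => ?_
    obtain ⟨m, hm1, hm⟩ := main r hr hrδ
    refine le_trans ?_ hm
    have h2 := re_le_norm ((m : ℂ) - c * J)
    simp at h2
    linarith
  have hκ : 0 < Real.exp (-(1 / 4)) * Real.pi ^ 2 := by positivity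
  have hcJ : 0 < c.re * J := by linarith
  have hJpos : 0 < J := by
    rcases hJ0.lt_or_eq with h | h
    · exact h
    · rw [← h, mul_zero] at hcJ
      exact absurd hcJ (lt_irrefl 0)
  have hcre : 0 < c.re := pos_of_mul_pos_left hcJ hJ0
  have hcim : c.im = 0 := by
    have h2 : c.im * J = 0 := abs_nonpos_iff.1 him
    exact (mul_eq_zero.1 h2).resolve_right hJpos.ne'
  have hcc : ((c.re : ℝ) : ℂ) = c := by
    apply Complex.ext
    · simp
    · simp [hcim]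
  refine ⟨c.re, K, hcre, fun σ hσ => ?_⟩
  rw [hcc]
  exact hK σ hσ

end Pool.Agent.Helper96.CF
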